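import Pool.Agent.Helper43.RP.Goals

set_option autoImplicit false

open Finset Pool.Agent.Helper22.FSU Pool.Agent.Helper50.FE

namespace Pool.Agent.Helper32.RP.NEAR

theorem four_le_log {n : ℕ} (hn : 100 ≤ n) : 4 ≤ Real.log n := by
  have h : (100 : ℝ) ≤ n := by exact_mod_cast hn
  rw [Real.le_log_iff_exp_le (by linarith)]
  have h1 : Real.exp 4 = Real.exp 1 ^ 4 := by
    rw [← Real.exp_nat_mul]; norm_num
  have h2 : Real.exp 1 ^ 4 ≤ 3 ^ 4 :=
    pow_le_pow_left₀ (Real.exp_pos 1).le (Real.exp_one_lt_d9.le.trans (by norm_num)) 4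
  rw [h1]
  have h3 : (3 : ℝ) ^ 4 ≤ 100 := by norm_num
  linarith

theorem t : Pool.Agent.Helper43.RP.NEAR2 := by
  intro S hS C hC0 hC n hn k hk
  have hn1 : (100 : ℝ) ≤ n := by exact_mod_cast hn
  have hlog := four_le_log hn
  obtain ⟨h, hh⟩ : ∃ h : ℝ, h = (n : ℝ) * Real.log n := ⟨_, rfl⟩
  obtain ⟨P, hP⟩ : ∃ P : ℝ, P = (su S k : ℝ) := ⟨_, rfl⟩
  obtain ⟨F, hF⟩ : ∃ F : ℝ, F = (n.factorial : ℝ) := ⟨_, rfl⟩
  have hPpos : 0 < P := by rw [hP]; exact_mod_cast su_pos hS k
  have hFpos : 0 < F := by rw [hF]; exact_mod_cast n.factorial_pos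
  have hlow := fact_lower n (by omega)
  rw [← hh, ← hF] at hlow
  have hup := log_fact_upper n
  rw [← hh, ← hF] at hup
  have hh4 : 4 * (n : ℝ) ≤ h := by rw [hh]; nlinarith
  unfold Near at hk
  have he : C * (n : ℝ) * Real.log n = C * h := by rw [hh]; ring
  rw [he, ← hF, ← hP] at hk
  have hCh : C * h ≤ h / 2 := by nlinarith
  have h2e : (2 : ℝ) ≤ Real.exp (n : ℝ) := by
    have := Real.add_one_le_exp (n : ℝ); linarith
  -- 2 exp (C h) ≤ n!
  have hkey : 2 * Real.exp (C * h) ≤ F := by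
    calc 2 * Real.exp (C * h) ≤ Real.exp (n : ℝ) * Real.exp (C * h) := by gcongr
      _ = Real.exp (n + C * h) := by rw [← Real.exp_add]
      _ ≤ Real.exp (h - n) := by
          apply Real.exp_le_exp.2
          linarith
      _ ≤ F := hlow
  have hab := abs_le.1 hk
  have hPlow : F / 2 ≤ P := by linarith [hab.2]
  have hPup : P ≤ 2 * F := by linarith [hab.1]
  constructor
  · have hcast : (((((n.factorial : ℕ) : ℚ) / (su S k : ℚ) : ℚ)) : ℝ) = F / P := by
      rw [hF, hP]; push_cast; rfl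
    rw [hcast, ← hh]
    have h1 : F / P - 1 = (F - P) / P := by field_simp
    rw [h1, abs_div, abs_of_pos hPpos, div_le_iff₀ hPpos]
    calc |F - P| ≤ Real.exp (C * h) := hk
      _ = Real.exp (C * h - h + n) * Real.exp (h - n) := by
          rw [← Real.exp_add]; congr 1; ring
      _ ≤ Real.exp (C * h - h + n) * F := by gcongr
      _ ≤ Real.exp (C * h - h + n) * (2 * P) := by
          apply mul_le_mul_of_nonneg_left _ (Real.exp_pos _).le
          linarith
      _ = (2 * Real.exp (C * h - h + n)) * P := by ring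
      _ ≤ (Real.exp (n : ℝ) * Real.exp (C * h - h + n)) * P := by gcongr
      _ = Real.exp (-((1 - C) * h - 2 * n)) * P := by
          rw [← Real.exp_add]; congr 2; ring
  · rw [← hP, ← hh]
    have h3 : Real.log P ≤ Real.log (2 * F) := Real.log_le_log hPpos hPup
    rw [Real.log_mul (by norm_num) hFpos.ne'] at h3
    have h4 : Real.log 2 ≤ 1 := by
      have := Real.log_two_lt_d9; linarith
    linarith

end Pool.Agent.Helper32.RP.NEAR
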